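import Mathlib

set_option autoImplicit false

namespace Pool.Agent.Results.MP_82795f_nt.InfinitelyManyC

/-- The set `K_c`: the positive integers `k` such that `n ∣ C(n, k - c n)` for every integer `n`
with `k / (c + 1) ≤ n ≤ k / c`. -/
def K (c : ℕ) : Set ℕ :=
  {k | 0 < k ∧ ∀ n : ℕ, k ≤ (c + 1) * n → c * n ≤ k → n ∣ n.choose (k - c * n)}

/-- Fermat primes. -/
def IsFermatPrime (q : ℕ) : Prop := q.Prime ∧ ∃ m : ℕ, q = 2 ^ (2 ^ m) + 1

/-- The set `S` of the numbers `2 q`, `q > 3` a Fermat prime. -/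
def S : Set ℕ := {k | ∃ q : ℕ, IsFermatPrime q ∧ 3 < q ∧ k = 2 * q}

theorem testBit_of_odd_choose : ∀ (i n k : ℕ), Odd (n.choose k) → k.testBit i = true →
    n.testBit i = true := by
  intro i
  induction i with
  | zero =>
    intro n k h hk
    have hl := Choose.choose_modEq_choose_mod_mul_choose_div_nat (n := n) (k := k) (p := 2)
    have h1 : Odd ((n % 2).choose (k % 2) * (n / 2).choose (k / 2)) := by
      rw [Nat.odd_iff] at h ⊢
      rw [← hl, h]
    have h2 := Nat.odd_mul.1 h1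
    rw [Nat.testBit_zero, decide_eq_true_eq] at hk ⊢
    rw [hk] at h2
    rcases Nat.mod_two_eq_zero_or_one n with h3 | h3
    · rw [h3] at h2
      simp at h2
    · exact h3
  | succ i ih =>
    intro n k h hk
    have hl := Choose.choose_modEq_choose_mod_mul_choose_div_nat (n := n) (k := k) (p := 2)
    have h1 : Odd ((n % 2).choose (k % 2) * (n / 2).choose (k / 2)) := by
      rw [Nat.odd_iff] at h ⊢
      rw [← hl, h]
    have h2 := Nat.odd_mul.1 h1
    rw [Nat.testBit_succ] at hk ⊢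
    exact ih _ _ h2.2 hk

theorem testBit_two_pow_mul_sub_one {s w : ℕ} (hw : 1 ≤ w) (j : ℕ) :
    (2 ^ s * w - 1).testBit j = if j < s then true else (w - 1).testBit (j - s) := by
  have h0 : 1 ≤ 2 ^ s := Nat.one_le_two_pow
  have h : 2 ^ s * w - 1 = 2 ^ s * (w - 1) + (2 ^ s - 1) := by
    obtain ⟨v, rfl⟩ : ∃ v, w = v + 1 := ⟨w - 1, by omega⟩
    simp only [Nat.add_sub_cancel, Nat.mul_add, Nat.mul_one]
    omega
  rw [h, Nat.testBit_two_pow_mul_add _ (by omega)]
  split_ifs with hj
  · simp [hj]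
  · rfl

theorem testBit_two_pow_add {t w : ℕ} (hw : w < 2 ^ t) (j : ℕ) :
    (2 ^ t + w).testBit j = if j < t then w.testBit j else (1 : ℕ).testBit (j - t) := by
  have := Nat.testBit_two_pow_mul_add 1 hw j
  rwa [Nat.mul_one] at this

theorem one_testBit {i : ℕ} (h : (1 : ℕ).testBit i = true) : i = 0 := by
  by_contra hi
  have : (1 : ℕ).testBit i = false := Nat.testBit_lt_two_pow (Nat.one_lt_two_pow hi)
  rw [this] at h
  exact absurd h (by decide)

theorem lt_of_testBit {w t i : ℕ} (hw : w < 2 ^ t) (h : w.testBit i = true) : i < t := by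
  by_contra hi
  have : w < 2 ^ i := lt_of_lt_of_le hw (Nat.pow_le_pow_right (by norm_num) (by omega))
  rw [Nat.testBit_lt_two_pow this] at h
  exact absurd h (by decide)

/-- The first case of the digit argument. -/
theorem caseA {s t w : ℕ} (hs : 3 ≤ s) (hst : s ≤ t) (hw1 : w % 2 = 1) (hwt : w < 2 ^ t)
    (hsub : ∀ i, (2 ^ s * w - 1).testBit i = true → (2 ^ t + w).testBit i = true) : False := by
  have hlow : ∀ i < s, w.testBit i = true := by
    intro i hi
    have h1 := hsub i (by rw [testBit_two_pow_mul_sub_one (by omega), if_pos hi])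
    rwa [testBit_two_pow_add hwt, if_pos (by omega)] at h1
  have hstep : ∀ i, 1 ≤ i → w.testBit i = true →
      (i + s < t ∧ w.testBit (i + s) = true) ∨ i + s = t := by
    intro i hi hb
    have h1 : (w - 1).testBit i = true := by
      obtain ⟨i', rfl⟩ : ∃ i', i = i' + 1 := ⟨i - 1, by omega⟩
      rw [Nat.testBit_succ] at hb ⊢
      have : (w - 1) / 2 = w / 2 := by omega
      rw [this]; exact hb
    have h2 := hsub (i + s) (by
      rw [testBit_two_pow_mul_sub_one (by omega), if_neg (by omega), Nat.add_sub_cancel]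
      exact h1)
    rw [testBit_two_pow_add hwt] at h2
    split_ifs at h2 with h3
    · exact Or.inl ⟨h3, h2⟩
    · have := one_testBit h2
      exact Or.inr (by omega)
  have hchain : ∀ d i, 1 ≤ i → w.testBit i = true → t - i ≤ d → s ∣ t - i := by
    intro d
    induction d with
    | zero =>
      intro i _ hb hd
      have := lt_of_testBit hwt hb
      omega
    | succ d ih =>
      intro i hi hb hd
      have hit := lt_of_testBit hwt hb
      rcases hstep i hi hb with ⟨h1, h2⟩ | h1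
      · have h3 := ih (i + s) (by omega) h2 (by omega)
        have h4 : t - i = (t - (i + s)) + s := by omega
        rw [h4]
        exact Dvd.dvd.add h3 (dvd_refl s)
      · have h4 : t - i = s := by omega
        rw [h4]
  have d1 := hchain t 1 le_rfl (hlow 1 (by omega)) (by omega)
  have d2 := hchain t 2 (by norm_num) (hlow 2 (by omega)) (by omega)
  have h5 : t - 1 = (t - 2) + 1 := by omega
  rw [h5] at d1
  have d3 : s ∣ 1 := (Nat.dvd_add_right d2).1 d1
  have := Nat.le_of_dvd one_pos d3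
  omega

/-- The second case of the digit argument. -/
theorem caseB {s t w : ℕ} (hs : 1 ≤ s) (hw1 : 1 ≤ w) (hwt : w < 2 ^ t)
    (hsub : ∀ i, (2 ^ s * w - 1).testBit i = true → (2 ^ t + w - 1).testBit i = true) :
    False := by
  obtain ⟨a, v, hv, rfl⟩ := Nat.exists_eq_two_pow_mul_odd (n := w) (by omega)
  have hv1 : 1 ≤ v := hv.pos
  have h1 : (2 ^ s * (2 ^ a * v) - 1).testBit a = true := by
    rw [← Nat.mul_assoc, ← pow_add, testBit_two_pow_mul_sub_one hv1, if_pos (by omega)]
  have h2 := hsub a h1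
  have hat : a < t := by
    have : 2 ^ a < 2 ^ t := lt_of_le_of_lt (Nat.le_mul_of_pos_right _ hv1) hwt
    exact (Nat.pow_lt_pow_iff_right (by norm_num)).1 this
  rw [Nat.add_sub_assoc hw1, testBit_two_pow_add (by omega), if_pos hat,
    testBit_two_pow_mul_sub_one hv1, if_neg (by omega), Nat.sub_self, Nat.testBit_zero,
    decide_eq_true_eq] at h2
  rw [Nat.odd_iff] at hv
  omega

/-- Contradiction from the second digit argument, in arithmetic form. -/
theorem digits_contra {s M a u : ℕ} (hs : 3 ≤ s) (hM : 2 ≤ M)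
    (hu : 2 ^ s * a = 2 ^ M + 1 + u) (hua : u ≤ a) :
    ∃ t w : ℕ, s ≤ t ∧ 1 ≤ w ∧ w < 2 ^ t ∧ a = 2 ^ t + w ∧ u = 2 ^ s * w - 1 := by
  have hs8 : 8 ≤ 2 ^ s := by
    calc 8 = 2 ^ 3 := by norm_num
      _ ≤ 2 ^ s := Nat.pow_le_pow_right (by norm_num) hs
  have ha : 1 ≤ a := by
    rcases Nat.eq_zero_or_pos a with h | h
    · exfalso
      rw [h, Nat.mul_zero] at hu
      exact absurd hu.symm (Nat.ne_of_gt (by positivity))
    · exact h
  -- `s ≤ M`
  have hsM : s ≤ M := by
    by_contra hcon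
    have h1 : 2 * 2 ^ M ≤ 2 ^ s := by
      calc 2 * 2 ^ M = 2 ^ (M + 1) := by ring
        _ ≤ 2 ^ s := Nat.pow_le_pow_right (by norm_num) (by omega)
    have h2 : 2 ^ s * a ≤ 2 ^ M + 1 + a := by omega
    have h3 : (2 ^ s - 1) * a ≤ 2 ^ M + 1 := by
      rw [Nat.sub_mul]; omega
    have h4 : 2 ^ s - 1 ≤ (2 ^ s - 1) * a := Nat.le_mul_of_pos_right _ ha
    omega
  obtain ⟨t, rfl⟩ : ∃ t, M = s + t := ⟨M - s, by omega⟩
  rw [pow_add] at hu
  have hlt : 2 ^ t < a := by
    by_contra hcon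
    have h1 : 2 ^ s * a ≤ 2 ^ s * 2 ^ t := Nat.mul_le_mul_left _ (by omega)
    omega
  obtain ⟨w, rfl⟩ : ∃ w, a = 2 ^ t + w := ⟨a - 2 ^ t, by omega⟩
  have hw1 : 1 ≤ w := by omega
  rw [Nat.mul_add] at hu
  have hu' : u = 2 ^ s * w - 1 := by omega
  have h5 : 8 * w ≤ 2 ^ s * w := Nat.mul_le_mul_right _ hs8
  refine ⟨t, w, ?_, hw1, by omega, rfl, hu'⟩
  by_contra hcon
  have h6 : 2 * 2 ^ t ≤ 2 ^ s := by
    calc 2 * 2 ^ t = 2 ^ (t + 1) := by ring
      _ ≤ 2 ^ s := Nat.pow_le_pow_right (by norm_num) (by omega)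
  have h7 : (2 ^ s - 1) * w ≤ 2 ^ t + 1 := by
    rw [Nat.sub_mul]; omega
  have h8 : 2 ^ s - 1 ≤ (2 ^ s - 1) * w := Nat.le_mul_of_pos_right _ hw1
  omega

theorem mem_K {s M : ℕ} (hs : 3 ≤ s) (hM : 2 ≤ M) (hq : (2 ^ M + 1).Prime) :
    2 * (2 ^ M + 1) ∈ K (2 ^ s - 1) := by
  set q := 2 ^ M + 1 with hqdef
  have hs8 : 8 ≤ 2 ^ s := by
    calc 8 = 2 ^ 3 := by norm_num
      _ ≤ 2 ^ s := Nat.pow_le_pow_right (by norm_num) hs
  obtain ⟨c, hc⟩ : ∃ c, 2 ^ s = c + 1 := ⟨2 ^ s - 1, by omega⟩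
  have hcs : 2 ^ s - 1 = c := by omega
  rw [hcs]
  have hM4 : 4 ≤ 2 ^ M := by
    calc 4 = 2 ^ 2 := by norm_num
      _ ≤ 2 ^ M := Nat.pow_le_pow_right (by norm_num) hM
  refine ⟨by omega, ?_⟩
  intro n hn1 hn2
  have hs2 : 2 ^ s % 4 = 0 := by
    obtain ⟨s', rfl⟩ : ∃ s', s = s' + 2 := ⟨s - 2, by omega⟩
    rw [pow_add]; norm_num
  have hM2 : 2 ^ M % 4 = 0 := by
    obtain ⟨s', rfl⟩ : ∃ s', M = s' + 2 := ⟨M - 2, by omega⟩
    rw [pow_add]; norm_num
  have hcodd : c % 2 = 1 := by omega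
  have hqodd : q % 2 = 1 := by omega
  have hn0 : 0 < n := by
    rcases Nat.eq_zero_or_pos n with h | h
    · subst h; omega
    · exact h
  have hnq : n < q := by
    have : 7 * n ≤ 2 * q := le_trans (Nat.mul_le_mul_right _ (by omega)) hn2
    omega
  obtain ⟨j, hj⟩ : ∃ j, c * n + j = 2 * q := ⟨2 * q - c * n, by omega⟩
  have hjn : 2 * q - c * n = j := by omega
  rw [hjn]
  have hjle : j ≤ n := by
    have : (c + 1) * n = c * n + n := by ring
    omega
  rcases Nat.even_or_odd n with hev | hodd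
  · -- `n` even
    obtain ⟨n1, hn1'⟩ := hev
    have hn1'' : n = 2 * n1 := by omega
    have hcn : c * n = 2 * (c * n1) := by rw [hn1'']; ring
    obtain ⟨j1, hj1⟩ : ∃ j1, c * n1 + j1 = q := ⟨q - c * n1, by omega⟩
    have hj2 : j = 2 * j1 := by omega
    have hn1pos : 0 < n1 := by omega
    have hj1n1 : j1 ≤ n1 := by omega
    have hcop : Nat.Coprime n1 q :=
      (Nat.coprime_of_lt_prime (by omega) (by omega) hq).symm
    have hcop2 : Nat.Coprime n1 j1 := by
      rw [← hj1, Nat.add_comm, Nat.coprime_add_mul_right_right] at hcop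
      exact hcop
    have hj1pos : 0 < j1 := by
      rcases Nat.eq_zero_or_pos j1 with h | h
      · exfalso
        rw [h, Nat.coprime_zero_right] at hcop2
        rw [hcop2, h] at hj1
        omega
      · exact h
    -- the key relation
    have key : n1 * (2 * n1 - 1).choose (2 * j1 - 1) = (2 * n1).choose (2 * j1) * j1 := by
      have h1 := Nat.add_one_mul_choose_eq (2 * n1 - 1) (2 * j1 - 1)
      have e1 : (2 * n1 - 1) + 1 = 2 * n1 := by omega
      have e2 : (2 * j1 - 1) + 1 = 2 * j1 := by omega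
      rw [e1, e2] at h1
      have h2 : 2 * (n1 * (2 * n1 - 1).choose (2 * j1 - 1))
          = 2 * ((2 * n1).choose (2 * j1) * j1) := by
        rw [← Nat.mul_assoc, h1]; ring
      omega
    obtain ⟨e, he⟩ : n1 ∣ (2 * n1).choose (2 * j1) :=
      hcop2.dvd_of_dvd_mul_right ⟨_, key.symm⟩
    have hke : (2 * n1 - 1).choose (2 * j1 - 1) = e * j1 := by
      rw [he, Nat.mul_assoc] at key
      exact Nat.eq_of_mul_eq_mul_left hn1pos key
    -- digit relation
    have hdig : 2 ^ s * n1 = 2 ^ M + 1 + (n1 - j1) := by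
      have : 2 ^ s * n1 = c * n1 + n1 := by rw [hc]; ring
      omega
    obtain ⟨t, w, hst, hw1, hwt, hn1w, huw⟩ := digits_contra hs hM hdig (by omega)
    have ht2 : 2 ^ t % 2 = 0 := by
      obtain ⟨s', rfl⟩ : ∃ s', t = s' + 1 := ⟨t - 1, by omega⟩
      rw [pow_add]; norm_num
    have hee : 2 ∣ e := by
      rcases Nat.even_or_odd n1 with hev1 | hodd1
      · -- `n1` even, `j1` odd
        have hcn1 : c * n1 % 2 = 0 := by
          rw [Nat.mul_mod, Nat.even_iff.1 hev1]; simp
        have hj1odd : j1 % 2 = 1 := by omega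
        have hl := Choose.choose_modEq_choose_mod_mul_choose_div_nat
          (n := 2 * n1 - 1) (k := 2 * j1 - 1) (p := 2)
        have e1 : (2 * n1 - 1) % 2 = 1 := by omega
        have e2 : (2 * j1 - 1) % 2 = 1 := by omega
        have e3 : (2 * n1 - 1) / 2 = n1 - 1 := by omega
        have e4 : (2 * j1 - 1) / 2 = j1 - 1 := by omega
        rw [e1, e2, e3, e4, Nat.choose_self, Nat.one_mul, hke] at hl
        have heven : ¬ Odd ((n1 - 1).choose (j1 - 1)) := by
          intro hod
          have hsymm : (n1 - 1).choose (j1 - 1) = (n1 - 1).choose (n1 - j1) := by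
            rw [← Nat.choose_symm (by omega : n1 - j1 ≤ n1 - 1)]
            congr 1
            omega
          rw [hsymm] at hod
          refine caseB (s := s) (t := t) (w := w) (by omega) hw1 hwt ?_
          intro i hi
          rw [← huw] at hi
          have := testBit_of_odd_choose i _ _ hod hi
          rwa [hn1w] at this
        have h9 : e * j1 % 2 = 0 := by
          rw [Nat.not_odd_iff] at heven
          rw [← heven]
          exact hl
        have h10 : 2 ∣ e * j1 := Nat.dvd_of_mod_eq_zero h9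
        refine (Nat.Coprime.dvd_of_dvd_mul_right ?_ h10)
        rw [Nat.coprime_two_left, Nat.odd_iff]
        exact hj1odd
      · -- `n1` odd
        have hl := Choose.choose_modEq_choose_mod_mul_choose_div_nat
          (n := 2 * n1) (k := 2 * j1) (p := 2)
        have e1 : (2 * n1) % 2 = 0 := by omega
        have e2 : (2 * j1) % 2 = 0 := by omega
        have e3 : (2 * n1) / 2 = n1 := by omega
        have e4 : (2 * j1) / 2 = j1 := by omega
        rw [e1, e2, e3, e4, Nat.choose_self, Nat.one_mul, he] at hl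
        have heven : ¬ Odd (n1.choose j1) := by
          intro hod
          have hsymm : n1.choose j1 = n1.choose (n1 - j1) := (Nat.choose_symm hj1n1).symm
          rw [hsymm] at hod
          rw [Nat.odd_iff] at hodd1
          refine caseA (s := s) (t := t) (w := w) hs hst (by omega) hwt ?_
          intro i hi
          rw [← huw] at hi
          have := testBit_of_odd_choose i _ _ hod hi
          rwa [hn1w] at this
        have h9 : n1 * e % 2 = 0 := by
          rw [Nat.not_odd_iff] at heven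
          rw [← heven]
          exact hl
        have h10 : 2 ∣ n1 * e := Nat.dvd_of_mod_eq_zero h9
        refine (Nat.Coprime.dvd_of_dvd_mul_left ?_ h10)
        rw [Nat.coprime_two_left]
        exact hodd1
    obtain ⟨f, rfl⟩ := hee
    rw [hn1'', hj2, he]
    exact ⟨f, by ring⟩
  · -- `n` odd
    have hcop : Nat.Coprime n (2 * q) := by
      refine Nat.Coprime.mul_right ?_ ?_
      · exact (Nat.coprime_two_left.2 hodd).symm
      · exact (Nat.coprime_of_lt_prime (by omega) (by omega) hq).symm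
    have hcop2 : Nat.Coprime n j := by
      rw [← hj, Nat.add_comm, Nat.coprime_add_mul_right_right] at hcop
      exact hcop
    rcases Nat.eq_zero_or_pos j with h | h
    · rw [h, Nat.coprime_zero_right] at hcop2
      rw [hcop2]
      exact one_dvd _
    · obtain ⟨j', rfl⟩ : ∃ j', j = j' + 1 := ⟨j - 1, by omega⟩
      obtain ⟨n', rfl⟩ : ∃ n', n = n' + 1 := ⟨n - 1, by omega⟩
      have h1 := Nat.add_one_mul_choose_eq n' j'
      exact hcop2.dvd_of_dvd_mul_right ⟨_, h1.symm⟩

theorem S_subset {s : ℕ} (hs : 3 ≤ s) : S ⊆ K (2 ^ s - 1) := by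
  rintro k ⟨q, ⟨hq, m, rfl⟩, h3, rfl⟩
  refine mem_K hs ?_ hq
  by_contra hcon
  have : 2 ^ m ≤ 1 := by omega
  have h2 : 2 ^ (2 ^ m) ≤ 2 ^ 1 := Nat.pow_le_pow_right (by norm_num) this
  omega

/-- Q1 has a positive answer: `S ⊆ K_c` for infinitely many `c ≥ 2`, namely for every
`c = 2 ^ s - 1` with `s ≥ 3`. -/
theorem result :
    (∀ s : ℕ, 3 ≤ s → S ⊆ K (2 ^ s - 1)) ∧ {c : ℕ | 2 ≤ c ∧ S ⊆ K c}.Infinite := by
  refine ⟨fun s hs => S_subset hs, ?_⟩
  have hinj : Set.InjOn (fun s : ℕ => 2 ^ s - 1) (Set.Ici 3) := by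
    intro a _ b _ hab
    simp only at hab
    have h1 : 1 ≤ 2 ^ a := Nat.one_le_two_pow
    have h2 : 1 ≤ 2 ^ b := Nat.one_le_two_pow
    exact Nat.pow_right_injective le_rfl (by show 2 ^ a = 2 ^ b; omega)
  refine ((Set.Ici_infinite 3).image hinj).mono ?_
  rintro c ⟨s, hs, rfl⟩
  refine ⟨?_, S_subset hs⟩
  have : 2 ^ 3 ≤ 2 ^ s := Nat.pow_le_pow_right (by norm_num) hs
  show 2 ≤ 2 ^ s - 1
  omega

end Pool.Agent.Results.MP_82795f_nt.InfinitelyManyC
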