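import Mathlib

set_option autoImplicit false

namespace Pool.Agent.Results.MP_82795f_nt.MultiplesOfThree

/-- The set `K_c`: the positive integers `k` such that `n ∣ C(n, k - c n)` for every integer `n`
with `k / (c + 1) ≤ n ≤ k / c`. -/
def K (c : ℕ) : Set ℕ :=
  {k | 0 < k ∧ ∀ n : ℕ, k ≤ (c + 1) * n → c * n ≤ k → n ∣ n.choose (k - c * n)}

/-- Fermat primes. -/
def IsFermatPrime (q : ℕ) : Prop := q.Prime ∧ ∃ m : ℕ, q = 2 ^ (2 ^ m) + 1

/-- The set `S` of the numbers `2 q`, `q > 3` a Fermat prime. -/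
def S : Set ℕ := {k | ∃ q : ℕ, IsFermatPrime q ∧ 3 < q ∧ k = 2 * q}

/-- Q2 has a negative answer: `514 = 2 · 257` is an element of `S` which is not in `K_12`,
because `40` does not divide `C(40, 34)`, where `34 = 514 - 12 · 40`. -/
theorem result :
    (514 ∈ S ∧ 514 ∉ K 12) ∧ ¬ (∀ c : ℕ, 0 < c → 3 ∣ c → S ⊆ K c) := by
  have h1 : 514 ∈ S := ⟨257, ⟨by norm_num, 3, by norm_num⟩, by norm_num, by norm_num⟩
  have h2 : 514 ∉ K 12 := by
    rintro ⟨_, h⟩
    have h3 := h 40 (by norm_num) (by norm_num)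
    revert h3
    decide +kernel
  exact ⟨⟨h1, h2⟩, fun h => h2 (h 12 (by norm_num) (by norm_num) h1)⟩

end Pool.Agent.Results.MP_82795f_nt.MultiplesOfThree
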